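import Mathlib

namespace Pool.Agent.Results.MP_8dea01_co.Ordering

open Filter Topology List

/-- The output of the rule `f` on the box content `s` (labels sorted by entrance time, oldest
first) and the input word: the object in position `f s` is removed and its label is output, then
the next input letter enters. -/
def run (f : List Bool → ℕ) : List Bool → List Bool → List Bool
  | _, [] => []
  | s, x :: xs => s.getD (f s) false :: run f (s.eraseIdx (f s) ++ [x]) xs

/-- a rule for a box of size `β` chooses a position in the box -/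
def Valid (β : ℕ) (f : List Bool → ℕ) : Prop := ∀ s : List Bool, s.length = β → f s < β

/-- the possible outputs of length `n` -/
def outputs (β : ℕ) (f : List Bool → ℕ) (n : ℕ) : Set (List Bool) :=
  {y | ∃ s x : List Bool, s.length = β ∧ x.length = n ∧ y = run f s x}

/-- the least number of outputs of length `n` -/
noncomputable def N (β n : ℕ) : ℕ := sInf {k | ∃ f, Valid β f ∧ k = (outputs β f n).ncard}

lemma run_length (f : List Bool → ℕ) (x : List Bool) : ∀ s, (run f s x).length = x.length := by
  induction x with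
  | nil => intro s; rfl
  | cons a x ih => intro s; simp [run, ih]

noncomputable def cnt (L : Set (List Bool)) (n : ℕ) : ℕ := {w | w ∈ L ∧ w.length = n}.ncard

lemma fin (L : Set (List Bool)) (n : ℕ) : {w | w ∈ L ∧ w.length = n}.Finite :=
  (List.finite_length_eq Bool n).subset fun _ h => h.2

lemma cnt_le (L M : Set (List Bool)) (v : List Bool) (n : ℕ) (h : ∀ z ∈ M, v ++ z ∈ L) :
    cnt M n ≤ cnt L (v.length + n) :=
  Set.ncard_le_ncard_of_injOn (fun z => v ++ z) (fun z hz => ⟨h z hz.1, by simp [hz.2]⟩)
    (fun _ _ _ _ e => append_cancel_left e) (fin _ _)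

lemma cnt_add (L M M' : Set (List Bool)) (a : Bool) (n : ℕ) (h : ∀ z ∈ M, a :: z ∈ L)
    (h' : ∀ z ∈ M', (!a) :: z ∈ L) : cnt M n + cnt M' n ≤ cnt L (n + 1) := by
  unfold cnt
  rw [← Set.ncard_image_of_injective _ (cons_injective (a := a)),
    ← Set.ncard_image_of_injective {w | w ∈ M' ∧ w.length = n} (cons_injective (a := !a)),
    ← Set.ncard_union_eq _ ((fin _ _).image _) ((fin _ _).image _)]
  · refine Set.ncard_le_ncard ?_ (fin _ _)
    rintro _ (⟨z, hz, rfl⟩ | ⟨z, hz, rfl⟩)
    · exact ⟨h z hz.1, by simp [hz.2]⟩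
    · exact ⟨h' z hz.1, by simp [hz.2]⟩
  · rw [Set.disjoint_left]
    rintro _ ⟨z, -, rfl⟩ ⟨z', -, e⟩
    simp at e

lemma cnt_pos (L : Set (List Bool)) (w : List Bool) (h : w ∈ L) : 1 ≤ cnt L w.length :=
  (Set.ncard_pos (fin _ _)).2 ⟨w, h, rfl⟩

def out (f : List Bool → ℕ) : List Bool → List Bool → List Bool
  | _, [] => []
  | r, x :: xs => (r ++ [x]).getD (f (r ++ [x])) false ::
      out f ((r ++ [x]).eraseIdx (f (r ++ [x]))) xs

def Lang (f : List Bool → ℕ) (r : List Bool) : Set (List Bool) := Set.range (out f r)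

lemma run_out (f : List Bool → ℕ) (xs : List Bool) :
    ∀ r x, run f (r ++ [x]) (xs ++ [false]) = out f r (x :: xs) := by
  induction xs with
  | nil => intro r x; simp [run, out]
  | cons a xs ih => intro r x; rw [cons_append, run, ih]; rfl

lemma out_length (f : List Bool → ℕ) (x : List Bool) : ∀ r, (out f r x).length = x.length := by
  induction x with
  | nil => intro s; rfl
  | cons a x ih => intro s; simp [out, ih]

def Loop (f : List Bool → ℕ) (a : Bool) (r : List Bool) : Prop := ∀ z ∈ Lang f r, a :: z ∈ Lang f r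

lemma Loop.rep {f : List Bool → ℕ} {a : Bool} {r : List Bool} (h : Loop f a r) (k : ℕ) :
    ∀ z ∈ Lang f r, replicate k a ++ z ∈ Lang f r := by
  induction k with
  | zero => simp
  | succ k ih => intro z hz; exact h _ (ih z hz)

lemma step (f : List Bool → ℕ) (r : List Bool) (x : Bool) :
    ∀ z ∈ Lang f ((r ++ [x]).eraseIdx (f (r ++ [x]))),
      (r ++ [x]).getD (f (r ++ [x])) false :: z ∈ Lang f r := by
  rintro _ ⟨xs, rfl⟩
  exact ⟨x :: xs, rfl⟩

lemma path (b : ℕ) (f : List Bool → ℕ) (hf : Valid (b + 1) f) (c : Bool) (k : ℕ) :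
    ∀ (u : List Bool) (t : ℕ), u.length = k → k + t = b → ∃ w r' : List Bool, w.length ≤ k ∧
      r'.length = b ∧ Loop f c r' ∧ (∀ z ∈ Lang f r', w ++ z ∈ Lang f (u ++ replicate t c)) ∧
      (w.length = k → r' = replicate b c) := by
  induction k using Nat.strong_induction_on with
  | _ k ih =>
  intro u t hu ht
  have e : u ++ replicate t c ++ [c] = u ++ replicate (t + 1) c := by
    rw [append_assoc, replicate_succ']
  have hi := hf (u ++ replicate (t + 1) c) (by simp; omega)
  have st := step f (u ++ replicate t c) c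
  rw [e] at st
  set i := f (u ++ replicate (t + 1) c)
  by_cases h : i < u.length
  · rw [eraseIdx_append_of_lt_length h] at st
    obtain ⟨w, r', h1, h2, h3, h4, h5⟩ := ih (k - 1) (by omega) (u.eraseIdx i) (t + 1)
      (by rw [length_eraseIdx_of_lt h, hu]) (by omega)
    exact ⟨_ :: w, r', by simp; omega, h2, h3, fun z hz => st _ (h4 z hz),
      fun h6 => h5 (by simp at h6; omega)⟩
  · rw [eraseIdx_append_of_length_le (by omega), eraseIdx_replicate, if_pos (by omega),
      getD_append_right _ _ _ _ (by omega), getD_replicate _ (by omega)] at st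
    refine ⟨[], u ++ replicate t c, by simp, by simp; omega, st, by simp, fun h6 => ?_⟩
    have : u = [] := length_eq_zero_iff.1 (by simp at h6; omega)
    subst this
    simp at hu h6 ⊢
    omega

lemma split (a : Bool) (w : List Bool) :
    w = replicate w.length a ∨ ∃ p v, w = replicate p a ++ (!a) :: v := by
  induction w with
  | nil => left; rfl
  | cons x w ih =>
    by_cases hx : x = a
    · subst hx
      rcases ih with h | ⟨p, v, h⟩
      · left; rw [length_cons, replicate_succ, ← h]
      · right; exact ⟨p + 1, v, by rw [h]; rfl⟩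
    · right; exact ⟨0, w, by cases x <;> cases a <;> simp_all⟩

lemma lower (b : ℕ) (hb : 1 ≤ b) (l : ℝ) (hl : 1 ≤ l) (hl' : l ^ b = l ^ (b - 1) + 1)
    (f : List Bool → ℕ) (hf : Valid (b + 1) f)
    (hnd : ∀ c x z, x :: z ∈ Lang f (replicate b c) → x = c) (n : ℕ) :
    ∀ a r, r.length = b → Loop f a r → l ^ n ≤ l ^ b * cnt (Lang f r) n := by
  induction n using Nat.strong_induction_on with
  | _ n ih =>
  intro a r hr hloop
  have nil : ∀ r, [] ∈ Lang f r := fun r => ⟨[], rfl⟩
  have small : ∀ (L : Set (List Bool)) (w : List Bool) (m : ℕ), w ∈ L → m ≤ b →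
      l ^ m ≤ l ^ b * cnt L w.length := by
    intro L w m hw hm
    have h1 : (1 : ℝ) ≤ cnt L w.length := by exact_mod_cast cnt_pos L w hw
    have h2 := pow_le_pow_right₀ hl hm
    nlinarith [pow_pos (zero_lt_one.trans_le hl) b]
  obtain ⟨p, hp, hM⟩ : ∃ p, p ≤ b ∧ ∀ m, b < m + p + 1 → m + p + 1 ≤ n →
      l ^ (m + p + 1 - b) ≤ l ^ b * cnt {u | replicate p a ++ (!a) :: u ∈ Lang f r} m := by
    obtain ⟨w, r', h1, h2, h3, h4, h5⟩ := path b f hf (!a) b r 0 hr rfl
    simp only [replicate_zero, append_nil] at h4
    have main : ∀ p v, p + 1 + v.length ≤ b →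
        (∀ z ∈ Lang f r', replicate p a ++ (!a) :: v ++ z ∈ Lang f r) →
        ∃ p, p ≤ b ∧ ∀ m, b < m + p + 1 → m + p + 1 ≤ n →
        l ^ (m + p + 1 - b) ≤ l ^ b * cnt {u | replicate p a ++ (!a) :: u ∈ Lang f r} m := by
      intro p v hpv hz
      refine ⟨p, by omega, fun m hm hm' => ?_⟩
      have a1 := ih (m - v.length) (by omega) (!a) r' h2 h3
      have a2 := cnt_le {u | replicate p a ++ (!a) :: u ∈ Lang f r} (Lang f r') v (m - v.length)
        (fun z h => by simpa using hz z h)
      rw [show v.length + (m - v.length) = m by omega] at a2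
      refine (pow_le_pow_right₀ hl (by omega)).trans (a1.trans ?_)
      gcongr
    rcases split a w with hw | ⟨p, v, hw⟩
    · by_cases hwb : w.length = b
      · refine ⟨b, le_rfl, fun m hm hm' => ?_⟩
        have a1 := ih (m + 1) (by omega) (!a) r' h2 h3
        rw [show m + b + 1 - b = m + 1 by omega]
        refine a1.trans ?_
        have a2 : cnt (Lang f r') (m + 1) ≤
            cnt {u | replicate b a ++ (!a) :: u ∈ Lang f r} m := by
          refine Set.ncard_le_ncard_of_injOn List.tail ?_ ?_ (fin _ _)
          · rintro (_ | ⟨x, z⟩) ⟨hz, hl⟩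
            · simp at hl
            · have := hnd (!a) x z (h5 hwb ▸ hz)
              subst this
              exact ⟨by simpa [← hwb, ← hw] using h4 _ hz, by simpa using hl⟩
          · rintro (_ | ⟨x, z⟩) ⟨hz, hl⟩ (_ | ⟨x', z'⟩) ⟨hz', hl'⟩ e
            · rfl
            · simp at hl
            · simp at hl'
            · rw [hnd (!a) x z (h5 hwb ▸ hz), hnd (!a) x' z' (h5 hwb ▸ hz')]
              simpa using e
        gcongr
      · exact main w.length [] (by simp; omega) fun z hz => by
          simpa [← hw] using h4 _ (h3 z hz)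
    · exact main p v (by rw [hw] at h1; simp at h1; omega) fun z hz => hw ▸ h4 z hz
  have key : ∀ j, j + p ≤ n → l ^ (j + p) ≤ l ^ b * cnt {u | replicate p a ++ u ∈ Lang f r} j := by
    intro j
    induction j with
    | zero =>
      intro _
      exact small _ [] _ (hloop.rep p _ (nil r)) (by omega)
    | succ j ihj =>
      intro hj
      by_cases hs : j + 1 + p ≤ b
      · have := small {u | replicate p a ++ u ∈ Lang f r} (replicate (j + 1) a) _
          (hloop.rep p _ (by simpa using hloop.rep (j + 1) _ (nil r))) hs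
        rwa [length_replicate] at this
      · have a1 := ihj (by omega)
        have a2 := hM j (by omega) (by omega)
        have a3 := cnt_add {u | replicate p a ++ u ∈ Lang f r} {u | replicate p a ++ u ∈ Lang f r}
          {u | replicate p a ++ (!a) :: u ∈ Lang f r} a j (fun z hz => by
            have := hloop _ hz
            rw [← cons_append, ← replicate_succ, replicate_succ', append_assoc] at this
            exact this) (fun z hz => hz)
        have a4 : l ^ (j + 1 + p) = l ^ (j + p) + l ^ (j + p + 1 - b) := by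
          rw [show j + 1 + p = (j + p + 1 - b) + b by omega, pow_add, hl', mul_add, ← pow_add,
            show j + p + 1 - b + (b - 1) = j + p by omega, mul_one]
        have a5 : ((cnt {u | replicate p a ++ u ∈ Lang f r} j : ℕ) : ℝ) +
            cnt {u | replicate p a ++ (!a) :: u ∈ Lang f r} j ≤
            cnt {u | replicate p a ++ u ∈ Lang f r} (j + 1) := by exact_mod_cast a3
        nlinarith [pow_pos (zero_lt_one.trans_le hl) b]
  by_cases hn : n ≤ b
  · have := small (Lang f r) (replicate n a) _ (by simpa using hloop.rep n _ (nil r)) hn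
    rwa [length_replicate] at this
  · have a1 := key (n - p) (by omega)
    have a2 := cnt_le (Lang f r) {u | replicate p a ++ u ∈ Lang f r} (replicate p a) (n - p)
      (fun z hz => hz)
    rw [length_replicate, show p + (n - p) = n by omega] at a2
    rw [show n - p + p = n by omega] at a1
    refine a1.trans ?_
    gcongr

lemma lower' (b : ℕ) (hb : 1 ≤ b) (l : ℝ) (hl : 1 ≤ l) (hl' : l ^ b = l ^ (b - 1) + 1)
    (f : List Bool → ℕ) (hf : Valid (b + 1) f) (n : ℕ) (hn : 1 ≤ n) :
    l ^ n ≤ l ^ b * (outputs (b + 1) f n).ncard := by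
  have sub : ∀ r : List Bool, r.length = b → cnt (Lang f r) n ≤ (outputs (b + 1) f n).ncard := by
    intro r hr
    refine Set.ncard_le_ncard ?_ ((List.finite_length_eq Bool n).subset ?_)
    · rintro _ ⟨⟨xs, rfl⟩, hx⟩
      rw [out_length] at hx
      rcases xs with _ | ⟨x, xs⟩
      · simp at hx; omega
      · exact ⟨r ++ [x], xs ++ [false], by simp [hr], by simpa using hx, (run_out f xs r x).symm⟩
    · rintro _ ⟨s, x, -, hx, rfl⟩
      exact (run_length f x s).trans hx
  by_cases hnd : ∀ c x z, x :: z ∈ Lang f (replicate b c) → x = c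
  · obtain ⟨w, r', -, h2, h3, -⟩ := path b f hf true b (replicate b true) 0 (by simp) rfl
    refine (lower b hb l hl hl' f hf hnd n true r' h2 h3).trans ?_
    have := sub r' h2
    gcongr
  · push Not at hnd
    obtain ⟨c, x, z, ⟨xs, hz⟩, hx⟩ := hnd
    have l1 : Loop f c (replicate b c) := by
      have hi := hf (replicate (b + 1) c) (by simp)
      have st := step f (replicate b c) c
      rw [← replicate_succ', eraseIdx_replicate, if_pos hi, getD_replicate _ hi] at st
      exact st
    have l2 : Loop f (!c) (replicate b c) := by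
      rcases xs with _ | ⟨y, ys⟩
      · simp [out] at hz
      have hi := hf (replicate b c ++ [y]) (by simp)
      have st := step f (replicate b c) y
      have e := (cons.inj hz).1
      rw [e] at st
      set i := f (replicate b c ++ [y])
      have hib : ¬ i < b := fun h => hx (by
        rw [← e, getD_append _ _ _ _ (by simpa using h), getD_replicate _ h])
      rw [eraseIdx_append_of_length_le (by simp; omega), length_replicate,
        show i - b = 0 by omega] at st
      have : x = !c := by cases x <;> cases c <;> simp_all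
      unfold Loop
      simpa [this] using st
    have h2 : ∀ m, 2 ^ m ≤ cnt (Lang f (replicate b c)) m := by
      intro m
      induction m with
      | zero => exact cnt_pos _ [] ⟨[], rfl⟩
      | succ m ih => have := cnt_add _ _ _ c m l1 l2; omega
    have h3 : l ≤ 2 := by
      have e : l ^ b = l ^ (b - 1) * l := by rw [← pow_succ]; congr 1; omega
      have := one_le_pow₀ (n := b - 1) hl
      nlinarith
    have h4 : (2 : ℝ) ^ n ≤ (outputs (b + 1) f n).ncard := by
      exact_mod_cast (h2 n).trans (sub _ (by simp))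
    have h5 := pow_le_pow_left₀ (by linarith) h3 n
    have := one_le_pow₀ (n := b) hl
    nlinarith [pow_pos (zero_lt_one.trans_le hl) n]

def W (b : ℕ) : ℕ → Bool → ℕ → Finset (List Bool)
  | 0, _, _ => {[]}
  | n + 1, a, j => if j = 0 then (W b n a 0).image (cons a) ∪ (W b n (!a) (b - 1)).image (cons !a)
      else (W b n a (j - 1)).image (cons a)

lemma W_card (b : ℕ) (hb : 1 ≤ b) (l : ℝ) (hl : 1 ≤ l) (hl' : l ^ b = l ^ (b - 1) + 1) (n : ℕ) :
    ∀ a j, j ≤ b → ((W b n a j).card : ℝ) ≤ l ^ (n + b - j) := by
  induction n with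
  | zero => intro a j _; simpa [W] using one_le_pow₀ hl
  | succ n ih =>
    intro a j hj
    rw [W]
    split_ifs with h
    · subst h
      have a1 := ih a 0 (by omega)
      have a2 := ih (!a) (b - 1) (by omega)
      have a3 : (((W b n a 0).image (cons a) ∪ (W b n (!a) (b - 1)).image (cons !a)).card : ℝ) ≤
          (W b n a 0).card + (W b n (!a) (b - 1)).card := by
        exact_mod_cast (Finset.card_union_le _ _).trans
          (add_le_add Finset.card_image_le Finset.card_image_le)
      rw [show n + b - (b - 1) = n + 1 by omega] at a2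
      rw [show n + b - 0 = n + 1 + (b - 1) by omega] at a1
      rw [Nat.sub_zero, pow_add, hl', mul_add, ← pow_add, mul_one]
      linarith
    · have a1 := ih a (j - 1) (by omega)
      rw [show n + b - (j - 1) = n + 1 + b - j by omega] at a1
      exact le_trans (by exact_mod_cast Finset.card_image_le) a1

def flag : List Bool → ℕ
  | [] => 0
  | a :: t => if a ∈ t then t.idxOf a + 1 else 0

def P (b : ℕ) (a : Bool) (j : ℕ) (s : List Bool) : Prop :=
  ∃ t, (s = a :: t ∧ j ≤ t.count a + 1) ∨ (j = 0 ∧ s = (!a) :: t ∧ b ≤ t.count (!a) + 1)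

lemma flag_step (b : ℕ) (hb : 1 ≤ b) (a : Bool) (j : ℕ) (t : List Bool) (ht : t.length = b)
    (hj : j ≤ t.count a + 1) (x : Bool) : (a :: t).getD (flag (a :: t)) false = a ∧
      P b a (j - 1) ((a :: t).eraseIdx (flag (a :: t)) ++ [x]) := by
  rw [flag]
  split_ifs with h
  · refine ⟨by simp [getElem?_idxOf h], t.erase a ++ [x], Or.inl ⟨?_, ?_⟩⟩
    · rw [eraseIdx_cons_succ, eraseIdx_idxOf_eq_erase]; rfl
    · have := count_pos_iff.2 h
      rw [count_append, count_erase_self]
      omega
  · have h0 : t.count a = 0 := count_eq_zero.2 h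
    have e : t = replicate b (!a) := by
      rw [eq_replicate_iff]
      refine ⟨ht, fun y hy => ?_⟩
      have : y ≠ a := fun e => h (e ▸ hy)
      cases y <;> cases a <;> simp_all
    obtain ⟨b, rfl⟩ : ∃ c, b = c + 1 := ⟨b - 1, by omega⟩
    refine ⟨rfl, replicate b (!a) ++ [x], Or.inr ⟨by omega, ?_, ?_⟩⟩
    · rw [e]; rfl
    · simp

lemma flag_run (b : ℕ) (hb : 1 ≤ b) (xs : List Bool) : ∀ a j s, s.length = b + 1 → P b a j s →
    run flag s xs ∈ W b xs.length a j := by
  induction xs with
  | nil => intro a j s _ _; simp [run, W]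
  | cons x xs ih =>
    have len : ∀ a (t : List Bool), (a :: t).length = b + 1 →
        ((a :: t).eraseIdx (flag (a :: t)) ++ [x]).length = b + 1 := by
      intro a t h
      rw [length_append, length_eraseIdx_of_lt, h]
      · simp
      · rw [flag]
        split_ifs with h'
        · simpa using idxOf_lt_length_of_mem h'
        · simp
    rintro a j s hs ⟨t, ⟨rfl, hj⟩ | ⟨rfl, rfl, hj⟩⟩
    · obtain ⟨h1, h2⟩ := flag_step b hb a j t (by simpa using hs) hj x
      have := ih a _ _ (len a t hs) h2
      rw [run, h1, length_cons, W]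
      split_ifs with h
      · subst h
        exact Finset.mem_union_left _ (Finset.mem_image_of_mem _ this)
      · exact Finset.mem_image_of_mem _ this
    · obtain ⟨h1, h2⟩ := flag_step b hb (!a) b t (by simpa using hs) hj x
      have := ih _ _ _ (len _ t hs) h2
      rw [run, h1, length_cons, W, if_pos rfl]
      exact Finset.mem_union_right _ (Finset.mem_image_of_mem _ this)

lemma flag_valid (b : ℕ) : Valid (b + 1) flag := by
  rintro (_ | ⟨a, t⟩) h
  · simp at h
  · rw [flag]
    split_ifs with h'
    · have := idxOf_lt_length_of_mem h'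
      simp at h; omega
    · omega

theorem result (β : ℕ) (hβ : 2 ≤ β) (l : ℝ) (hl : 0 < l) (h : l ^ (β - 1) - l ^ (β - 2) - 1 = 0) :
    Tendsto (fun n : ℕ => Real.logb 2 (N β n) / n) atTop (𝓝 (Real.logb 2 l)) := by
  obtain ⟨b, rfl⟩ : ∃ b, β = b + 1 := ⟨β - 1, by omega⟩
  have hb : 1 ≤ b := by omega
  have hl' : l ^ b = l ^ (b - 1) + 1 := by
    rw [show b + 1 - 1 = b by omega, show b + 1 - 2 = b - 1 by omega] at h
    linarith
  have hl1 : 1 ≤ l := by
    by_contra hc
    have := pow_le_pow_of_le_one hl.le (not_le.1 hc).le (show b - 1 ≤ b by omega)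
    linarith
  have up : ∀ n, (N (b + 1) n : ℝ) ≤ 2 * l ^ b * l ^ n := by
    intro n
    have a1 : N (b + 1) n ≤ (outputs (b + 1) flag n).ncard := Nat.sInf_le ⟨flag, flag_valid b, rfl⟩
    have a2 : (outputs (b + 1) flag n).ncard ≤ (W b n true 0).card + (W b n false 0).card := by
      refine le_trans ?_ (Finset.card_union_le _ _)
      rw [← Set.ncard_coe_finset]
      refine Set.ncard_le_ncard ?_ (Finset.finite_toSet _)
      rintro _ ⟨_ | ⟨a, t⟩, x, hs, rfl, rfl⟩
      · simp at hs
      · have := flag_run b hb x a 0 _ hs ⟨t, Or.inl ⟨rfl, by omega⟩⟩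
        cases a <;> simp [this]
    have a3 : (N (b + 1) n : ℝ) ≤ (W b n true 0).card + (W b n false 0).card := by
      exact_mod_cast a1.trans a2
    have a4 := W_card b hb l hl1 hl' n true 0 (by omega)
    have a5 := W_card b hb l hl1 hl' n false 0 (by omega)
    rw [Nat.sub_zero, pow_add] at a4 a5
    linarith
  have low : ∀ n, 1 ≤ n → l ^ n ≤ l ^ b * N (b + 1) n := by
    intro n hn
    obtain ⟨f, hf, e⟩ := Nat.sInf_mem (s := {k | ∃ f, Valid (b + 1) f ∧
      k = (outputs (b + 1) f n).ncard}) ⟨_, flag, flag_valid b, rfl⟩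
    rw [N, e]
    exact lower' b hb l hl1 hl' f hf n hn
  have t : ∀ c : ℝ, Tendsto (fun n : ℕ => Real.logb 2 l + c / n) atTop (𝓝 (Real.logb 2 l)) :=
    fun c => by simpa using (tendsto_const_div_atTop_nhds_zero_nat c).const_add (Real.logb 2 l)
  refine tendsto_of_tendsto_of_tendsto_of_le_of_le' (t (-Real.logb 2 (l ^ b)))
    (t (Real.logb 2 (2 * l ^ b))) ?_ ?_
  all_goals
    filter_upwards [eventually_ge_atTop 1] with n hn
    have hn' : (0 : ℝ) < n := by exact_mod_cast hn
    have h0 : (0 : ℝ) < N (b + 1) n := by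
      have := low n hn
      have h1 := pow_pos hl n
      have h2 := pow_pos hl b
      by_contra hc
      nlinarith
  · have := Real.logb_le_logb_of_le (b := 2) (by norm_num) (by positivity) (low n hn)
    rw [Real.logb_mul (by positivity) h0.ne', Real.logb_pow] at this
    rw [le_div_iff₀ hn', add_mul, div_mul_cancel₀ _ hn'.ne']
    linarith
  · have := Real.logb_le_logb_of_le (b := 2) (by norm_num) h0 (up n)
    rw [Real.logb_mul (by positivity) (by positivity), Real.logb_pow] at this
    rw [div_le_iff₀ hn', add_mul, div_mul_cancel₀ _ hn'.ne']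
    linarith

end Pool.Agent.Results.MP_8dea01_co.Ordering
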